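import Pool.Agent.Y149.TL.Core

/-! One-sided Bessel inequality on the line. -/

set_option autoImplicit false

namespace Pool.Agent.T6.H4.NF

open Finset Filter Topology Complex ComplexConjugate
open Pool.Agent.W540.BE (EP NormSys EP_const_mul EP_add EP_sum)
open Pool.Agent.H341R2 (E lam lam_tendsto lam_bounded)
open Pool.Agent.Y149.LN (normSysP E_eq_EP bessel_D norm_pI)
open Pool.Agent.Y149.CR (EP_mono' abs_EP_le zr norm_sum_sq EP_sum2)
open Pool.Agent.Y149.PK (E_add' E_smul E_mono abs_E_le lam_pos E_one sq_perturb)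
open Pool.Agent.Y149.TL

variable {ι : Type*} {R : ι → ι → Prop} {M : ℕ} {T : ι → Nat.Primes → ℝ} {b v : ℝ}

/-- **Bessel's inequality** on the line, one sign. -/
theorem bes_one (h : LineFam R M T b v) (S : Finset (ι × ℝ)) (Q : Nat.Primes → ℂ) {c : ℝ}
    (hQ : ∀ p, ‖Q p‖ ≤ c) {s : ℝ} (hs : s = 1 ∨ s = -1) {η : ℝ} (hη : 0 < η) :
    ∀ᶠ ε : ℝ in 𝓝[>] 0,
      ∑ a ∈ S, (max (s * ((E ε fun p => (Q p * wT T a p).re) / lam ε)) 0) ^ 2 ≤
      M * v ^ 2 * c ^ 2 + η := by
  classical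
  have hc0 : 0 ≤ c := (norm_nonneg _).trans (hQ ⟨2, Nat.prime_two⟩)
  set δ : ℝ := η / (4 * (c ^ 2 + 1)) with hδ
  have hδ0 : 0 < δ := by positivity
  have hlam1 : Tendsto (fun ε : ℝ => EP (fun p : Nat.Primes => (p : ℕ)) ε (fun _ => 1) / lam ε)
      (𝓝[>] 0) (𝓝 1) := by
    refine tendsto_const_nhds.congr' ?_
    filter_upwards [lam_pos] with ε hε
    have e : EP (fun p : Nat.Primes => (p : ℕ)) ε (fun _ => 1) = lam ε := E_one ε
    rw [e, div_self hε.ne']
  have hs1 : s ^ 2 = 1 := by rcases hs with rfl | rfl <;> norm_num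
  have hsa : |s| = 1 := by rcases hs with rfl | rfl <;> norm_num
  have h1 := bessel_D normSysP lam_tendsto hlam1 S (fun a p => ph (Q p) * wT T a p)
    (fun p => s * ‖Q p‖) (bu := b) (bT := c) (D := M * v ^ 2 + δ)
    (by have := h.v0; positivity)
    (fun a p => by rw [norm_mul, norm_ph, one_mul]; exact h.norm_wT a p)
    (fun p => by
      rw [abs_mul, hsa, one_mul, abs_of_nonneg (norm_nonneg _)]
      exact hQ p) (fun B => by
      obtain ⟨C, hC⟩ := h.var_le S B
      refine ⟨C, ?_⟩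
      filter_upwards [hC, lam_pos] with ε h1 h2 w hw
      have e1 : (EP (fun p : Nat.Primes => (p : ℕ)) ε fun p =>
          ‖∑ a ∈ S, (w a : ℂ) * (ph (Q p) * wT T a p)‖ ^ 2) =
          E ε fun p => ‖∑ a ∈ S, (w a : ℂ) * wT T a p‖ ^ 2 := by
        rw [E_eq_EP]
        congr 1
        funext p
        have e2 : ∑ a ∈ S, (w a : ℂ) * (ph (Q p) * wT T a p) =
            ph (Q p) * ∑ a ∈ S, (w a : ℂ) * wT T a p := by
          rw [Finset.mul_sum]
          exact Finset.sum_congr rfl fun a _ => by ring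
        rw [e2, norm_mul, norm_ph, one_mul]
      rw [e1]
      refine (h1 w hw).trans ?_
      refine add_le_add_left (mul_le_mul_of_nonneg_right (by linarith) ?_) _
      exact mul_nonneg (Finset.sum_nonneg fun _ _ => sq_nonneg _) h2.le)
    (fun a ε => s * ((E ε fun p => (Q p * wT T a p).re) / lam ε)) (fun a _ => by
      refine tendsto_const_nhds.congr fun ε => ?_
      have e2 : (EP (fun p : Nat.Primes => (p : ℕ)) ε
          fun p => s * ‖Q p‖ * (ph (Q p) * wT T a p).re) =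
          s * E ε fun p => (Q p * wT T a p).re := by
        rw [← E_smul, E_eq_EP]
        congr 1
        funext p
        have e3 : (Q p * wT T a p).re = ‖Q p‖ * (ph (Q p) * wT T a p).re := by
          conv_lhs => rw [← mul_ph (Q p)]
          rw [mul_assoc, Complex.re_ofReal_mul]
        rw [e3]
        ring
      rw [e2]
      ring) (η := η / 4) (by positivity)
  have hδb : δ * c ^ 2 ≤ η / 4 := by
    rw [hδ, div_mul_eq_mul_div, div_le_iff₀ (by positivity)]
    nlinarith [sq_nonneg c]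
  filter_upwards [h1, lam_pos, self_mem_nhdsWithin] with ε h2 h3 h4
  have hε : (0 : ℝ) < ε := h4
  have h5 : (EP (fun p : Nat.Primes => (p : ℕ)) ε fun p => (s * ‖Q p‖) ^ 2) ≤ c ^ 2 * lam ε := by
    refine (le_abs_self _).trans (abs_E_le hε fun p => ?_)
    rw [abs_pow, abs_mul, hsa, one_mul, abs_of_nonneg (norm_nonneg _)]
    exact pow_le_pow_left₀ (norm_nonneg _) (hQ p) 2
  have h6 : (EP (fun p : Nat.Primes => (p : ℕ)) ε fun p => (s * ‖Q p‖) ^ 2) / lam ε ≤ c ^ 2 := by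
    rw [div_le_iff₀ h3]
    exact h5
  have h7 : (M * v ^ 2 + δ) *
      ((EP (fun p : Nat.Primes => (p : ℕ)) ε fun p => (s * ‖Q p‖) ^ 2) / lam ε) ≤
      (M * v ^ 2 + δ) * c ^ 2 :=
    mul_le_mul_of_nonneg_left h6 (by have := h.v0; positivity)
  linarith

/-- perturbation of the one-sided inequality -/
theorem one_perturb {α : Type} (S : Finset α) (x y : α → ℝ → ℝ) (s K : ℝ) (hs : s = 1 ∨ s = -1)
    (hK : 0 ≤ K)
    (h : ∀ η : ℝ, 0 < η → ∀ᶠ ε : ℝ in 𝓝[>] 0, ∑ l ∈ S, (max (s * x l ε) 0) ^ 2 ≤ K + η)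
    (hy : ∀ l ∈ S, Tendsto (fun ε => y l ε - x l ε) (𝓝[>] 0) (𝓝 0)) {η : ℝ} (hη : 0 < η) :
    ∀ᶠ ε : ℝ in 𝓝[>] 0, ∑ l ∈ S, (max (s * y l ε) 0) ^ 2 ≤ K + η := by
  have hsa : |s| = 1 := by rcases hs with rfl | rfl <;> norm_num
  refine sq_perturb S (fun l ε => max (s * x l ε) 0) (fun l ε => max (s * y l ε) 0) K hK h
    (fun l hl => ?_) hη
  refine squeeze_zero_norm (fun ε => ?_) (by simpa using (hy l hl).norm)
  rw [Real.norm_eq_abs]
  refine (abs_max_sub_max_le_abs _ _ _).trans (le_of_eq ?_)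
  rw [← mul_sub, abs_mul, hsa, one_mul]

end Pool.Agent.T6.H4.NF
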