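import Pool.Agent.Y149.TL.Defs
import Pool.Agent.TH941.Newform

/-!
# Tensor products with the newforms of weight two: definitions
-/

set_option autoImplicit false

namespace Pool.Agent.T6.H4.NF

open CongruenceSubgroup Polynomial UpperHalfPlane
open scoped MatrixGroups

/-- The `n`-th Fourier coefficient of `f`. -/
noncomputable def coef {N : ℕ} (f : CuspForm (Gamma0 N : Subgroup (GL (Fin 2) ℝ)) 2) (n : ℕ) : ℂ :=
  (qExpansion 1 f).coeff n

/-- The properties of the newforms `f` of weight two on `Γ₀(N)`, normalised by `a_1 = 1`, which are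
used: the Fourier coefficients `a_n` are real and multiplicative, they satisfy Hecke's relations at
the powers of the primes, and `|a_p| ≤ 2 √p` for `p ∤ N` (Eichler, Shimura, Weil), `|a_p| ≤ 1` for
`p ∣ N` (Atkin, Lehner). -/
structure IsNewform {N : ℕ} (f : CuspForm (Gamma0 N : Subgroup (GL (Fin 2) ℝ)) 2) : Prop where
  one : coef f 1 = 1
  real : ∀ n, (coef f n).im = 0
  mul : ∀ m n : ℕ, Nat.Coprime m n → coef f (m * n) = coef f m * coef f n
  pow : ∀ p j : ℕ, p.Prime → coef f (p ^ (j + 2)) = coef f p * coef f (p ^ (j + 1)) -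
    (if p ∣ N then 0 else (p : ℂ) * coef f (p ^ j))
  good : ∀ p : ℕ, p.Prime → ¬ p ∣ N → ‖coef f p‖ ≤ 2 * Real.sqrt p
  bad : ∀ p : ℕ, p.Prime → p ∣ N → ‖coef f p‖ ≤ 1

/-- The eigenvalues of Frobenius at `p` of the newform `f`: the roots of `X² - a_p X + p`. -/
noncomputable def frobF {N : ℕ} (f : CuspForm (Gamma0 N : Subgroup (GL (Fin 2) ℝ)) 2)
    (p : Nat.Primes) : Multiset ℂ :=
  (X ^ 2 - C (coef f p) * X + C ((p : ℕ) : ℂ)).roots

open Pool.Agent.Y149.PK (tens) in
open Pool.Agent.Y149.TL in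
/-- The eigenvalues of Frobenius at `p` on `H ⊗ f`. -/
noncomputable def frobTens (H : Motive) {N : ℕ}
    (f : CuspForm (Gamma0 N : Subgroup (GL (Fin 2) ℝ)) 2) (p : Nat.Primes) : Multiset ℂ :=
  tens (H.frob p) (frobF f p)

end Pool.Agent.T6.H4.NF
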