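import Pool.Agent.T6.H4.NF.Bes
import Pool.Agent.T6.H4.NF.Defs

/-! The newforms of weight two on the line, and tensor products with an arbitrary motive. -/

set_option autoImplicit false

namespace Pool.Agent.T6.H4.NF

open Finset Filter Topology Complex Polynomial CongruenceSubgroup
open scoped MatrixGroups
open Pool.Agent.H341R2 (E lam lam_tendsto lam_bounded)
open Pool.Agent.Y149.CM (LFun exists_uv)
open Pool.Agent.Y149.PK (tens)
open Pool.Agent.Y149.TL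
open Pool.Agent.W165.RS (ac)
open Pool.Agent.TH941 (Hecke)
open Pool.Agent.Y722.RS (S2 rc rc_eq tt tt_le cross_le self_le)

theorem coef_eq {N : ℕ} (f : S2 N) (n : ℕ) : coef f n = ac f n := rfl

theorem IsNewform.hecke {N : ℕ} {f : S2 N} (h : IsNewform f) : Hecke f :=
  ⟨h.one, h.real, h.mul, h.pow, h.good, h.bad⟩

section
variable {N : ℕ} [NeZero N] {f : S2 N}

theorem frobF_roots (hf : IsNewform f) (p : Nat.Primes) : ∃ u v : ℂ,
    frobF f p = {u, v} ∧ u + v = ((rc f p : ℝ) : ℂ) ∧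
    ‖u‖ = Real.sqrt (p : ℕ) ∧ ‖v‖ = Real.sqrt (p : ℕ) := by
  have hp0 : (0 : ℝ) < (p : ℕ) := by exact_mod_cast p.2.pos
  have hs : 0 < Real.sqrt (p : ℕ) := Real.sqrt_pos.2 hp0
  have h1 := tt_le hf.hecke p.2
  have h2 : rc f p ^ 2 ≤ 4 * (p : ℕ) := by
    unfold tt at h1
    rw [abs_div, abs_of_pos hs, div_le_iff₀ hs] at h1
    have h3 := pow_le_pow_left₀ (abs_nonneg _) h1 2
    rw [sq_abs, mul_pow, Real.sq_sqrt hp0.le] at h3
    linarith
  obtain ⟨u, v, g1, g2, g3, g4⟩ := exists_uv (rc f p) p h2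
  refine ⟨u, v, ?_, g1, g3, g4⟩
  have e : (X ^ 2 - C (coef f p) * X + C ((p : ℕ) : ℂ) : ℂ[X]) = (X - C u) * (X - C v) := by
    have h1' : coef f p = u + v := by
      rw [g1, coef_eq, rc_eq hf.hecke.real]
    have h2' : (((p : ℕ)) : ℂ) = u * v := by rw [g2]; push_cast; rfl
    rw [h1', h2', C_add, C_mul]
    ring
  unfold frobF
  rw [e, roots_mul (mul_ne_zero (X_sub_C_ne_zero u) (X_sub_C_ne_zero v)), roots_X_sub_C,
    roots_X_sub_C]
  rfl

theorem frobF_pure (hf : IsNewform f) (p : Nat.Primes) :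
    Pure 1 2 p (frobF f p) := by
  obtain ⟨u, v, h1, h2, h3, h4⟩ := frobF_roots hf p
  have e : ((p : ℕ) : ℝ) ^ (((1 : ℤ) : ℝ) / 2) = Real.sqrt (p : ℕ) := by
    rw [Real.sqrt_eq_rpow]
    norm_num
  refine ⟨fun z hz => ?_, ?_⟩
  · rw [e]
    rw [h1] at hz
    simp only [Multiset.insert_eq_cons, Multiset.mem_cons, Multiset.mem_singleton] at hz
    rcases hz with rfl | rfl
    · exact h3
    · exact h4
  · rw [h1]
    simp

theorem frobF_sum (hf : IsNewform f) (p : Nat.Primes) :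
    (frobF f p).sum = ((rc f p : ℝ) : ℂ) := by
  obtain ⟨u, v, h1, h2, h3, h4⟩ := frobF_roots hf p
  rw [h1]
  simp only [Multiset.insert_eq_cons, Multiset.sum_cons, Multiset.sum_singleton]
  exact h2

end

section
variable {ι : Type} {Nf : ι → ℕ} [∀ i, NeZero (Nf i)] {f : ∀ i, S2 (Nf i)}

/-- **The family of the newforms on the line.** -/
theorem line_new (hf : ∀ i, IsNewform (f i)) (hne : ∀ i j, i ≠ j → ∃ p : ℕ, p.Prime ∧
      ¬ p ∣ Nf i ∧ ¬ p ∣ Nf j ∧ coef (f i) p ≠ coef (f j) p) :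
    LineFam (fun i j => i = j) 1 (fun i p => tt (f i) p) 2 1 := by
  refine ⟨fun i p => tt_le (hf i).hecke p.2, zero_le_one, fun i => ?_, fun i j hij => ?_,
    fun i j τ hτ => Pool.Agent.Y149.CR.cross_le_t (hf i).hecke (hf j).hecke hτ,
    fun i j hij => hij.symm, fun i S hS => ?_⟩
  · obtain ⟨C, hC⟩ := self_le (hf i).hecke
    obtain ⟨C', hC'⟩ := lam_bounded
    refine ⟨C + C', ?_⟩
    filter_upwards [hC, hC'] with ε h1 h2
    have e1 : (fun p : Nat.Primes => tt (f i) p ^ 2) =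
        fun p : Nat.Primes => tt (f i) p * tt (f i) p := by
      funext p
      ring
    rw [e1, one_pow, one_mul]
    have e3 : Real.log (1 / ε) = -Real.log ε := by rw [one_div, Real.log_inv]
    rw [e3] at h1
    have h3 := (abs_le.1 h2).1
    linarith
  · obtain ⟨p, hp, h1, h2, h3⟩ := hne i j hij
    refine cross_le (hf i).hecke (hf j).hecke hp h1 h2 fun h4 => h3 ?_
    rw [coef_eq, coef_eq, rc_eq (hf i).hecke.real, rc_eq (hf j).hecke.real, h4]
  · exact Finset.card_le_one.2 fun x hx y hy => (hS x hx).symm.trans (hS y hy)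

variable (hf : ∀ i, IsNewform (f i)) (hne : ∀ i j, i ≠ j → ∃ p : ℕ, p.Prime ∧
      ¬ p ∣ Nf i ∧ ¬ p ∣ Nf j ∧ coef (f i) p ≠ coef (f j) p)

include hf hne in
/-- **The mean squares, one sign at a time.** -/
theorem new_mean (H : Motive) (S : Finset (ι × ℝ)) {B : ι × ℝ → Nat.Primes → ℂ[X]}
    (hB : ∀ x ∈ S, IsEuler (H.weight + 1) (frobTens H (f x.1)) (B x))
    {s : ℝ} (hs : s = 1 ∨ s = -1) {η : ℝ} (hη : 0 < η) : ∀ᶠ ε : ℝ in 𝓝[>] 0,
      (∀ x ∈ S, LFun (B x) (edge (H.weight + 1) x.2 + ε) ≠ 0) ∧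
      ∑ x ∈ S, (max (s * size (H.weight + 1) (B x) x.2 ε) 0) ^ 2 ≤ (H.rank : ℝ) ^ 2 + η := by
  classical
  set w := H.weight with hw
  set N := H.rank with hN
  set δ := H.frob with hδdef
  have hδ : ∀ᶠ p in cofinite, Pure w N p (δ p) := H.Pure
  have hfam := line_new hf hne
  set T : ι → Nat.Primes → ℝ := fun i p => tt (f i) p with hT
  set Q : Nat.Primes → ℂ := Pool.Agent.Y149.TL.mt w N δ with hQ
  have hlink : ∀ x ∈ S, (∀ᶠ ε : ℝ in 𝓝[>] 0, LFun (B x) (edge (w + 1) x.2 + ε) ≠ 0) ∧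
      Tendsto (fun ε : ℝ => size (w + 1) (B x) x.2 ε - E ε (fun p => (Q p * wT T x p).re) / lam ε)
        (𝓝[>] 0) (𝓝 0) := by
    intro x hx
    refine line_log (hB x hx) (N := N * 2) (hδ.mono fun p hp =>
      tens_pure hp (frobF_pure (hf x.1) p)) x.2 (C0 := N * 2) (fun p => ?_)
      (hδ.mono fun p hp => ?_)
    · refine (Complex.abs_re_le_norm _).trans ?_
      rw [norm_mul]
      exact mul_le_mul (norm_mt w N δ p) (hfam.norm_wT x p) (norm_nonneg _) (Nat.cast_nonneg _)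
    · have hp0 : (0 : ℝ) < (p : ℕ) := by exact_mod_cast p.2.pos
      congr 1
      have e0 : (frobTens H (f x.1) p).sum = (δ p).sum * (frobF (f x.1) p).sum := by
        unfold frobTens
        rw [tens_sum]
      rw [e0, frobF_sum (hf x.1) p]
      have e1 : Q p = (δ p).sum / ((((p : ℕ) : ℝ) ^ ((w : ℝ) / 2) : ℝ) : ℂ) := by
        rw [hQ]
        unfold Pool.Agent.Y149.TL.mt
        rw [if_pos hp]
      have e2 : ((((p : ℕ) : ℝ) ^ (((w + 1 : ℤ) : ℝ) / 2) : ℝ) : ℂ) =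
          ((((p : ℕ) : ℝ) ^ ((w : ℝ) / 2) : ℝ) : ℂ) * ((Real.sqrt (p : ℕ) : ℝ) : ℂ) := by
        rw [← Complex.ofReal_mul, Real.sqrt_eq_rpow, ← Real.rpow_add hp0]
        congr 2
        push_cast
        ring
      have e3 : ((Real.sqrt (p : ℕ) : ℝ) : ℂ) ≠ 0 := by
        exact_mod_cast (Real.sqrt_pos.2 hp0).ne'
      have e4 := cpow_half w p
      rw [e1, e2]
      unfold wT
      rw [hT]
      simp only [tt]
      rw [Complex.ofReal_div]
      field_simp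
  have h1 : ∀ᶠ ε : ℝ in 𝓝[>] 0, ∀ x ∈ S, LFun (B x) (edge (w + 1) x.2 + ε) ≠ 0 := by
    rw [Filter.eventually_all_finset]
    exact fun x hx => (hlink x hx).1
  refine h1.and (one_perturb S (fun x ε => E ε (fun p => (Q p * wT T x p).re) / lam ε)
    (fun x ε => size (w + 1) (B x) x.2 ε) s _ hs (by positivity) (fun η' hη' => ?_)
    (fun x hx => (hlink x hx).2) hη)
  have h2 := bes_one hfam S Q (norm_mt w N δ) hs hη'
  refine h2.mono fun ε h3 => h3.trans (le_of_eq ?_)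
  push_cast
  ring

include hf hne in
/-- **The orders, one sign at a time.** -/
theorem new_order (H : Motive) (S : Finset (ι × ℝ)) {B : ι × ℝ → Nat.Primes → ℂ[X]}
    (hB : ∀ x ∈ S, IsEuler (H.weight + 1) (frobTens H (f x.1)) (B x))
    {r : ι × ℝ → ℤ} (hr : ∀ x ∈ S, HasOrder (H.weight + 1) (B x) x.2 (r x)) :
    ∑ x ∈ S, (max (-(r x)) 0) ^ 2 ≤ (H.rank : ℤ) ^ 2 ∧
    ∑ x ∈ S, (max (r x) 0) ^ 2 ≤ (H.rank : ℤ) ^ 2 := by
  have key : ∀ s : ℤ, (s = 1 ∨ s = -1) → ∑ x ∈ S, (max (s * -(r x)) 0) ^ 2 ≤ (H.rank : ℤ) ^ 2 := by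
    intro s hs
    have hs' : ((s : ℝ) = 1 ∨ (s : ℝ) = -1) := by rcases hs with rfl | rfl <;> norm_num
    have h1 : ∑ x ∈ S, (max ((s : ℝ) * (-(r x : ℝ))) 0) ^ 2 ≤ (H.rank : ℝ) ^ 2 := by
      refine le_of_forall_pos_le_add fun η hη => ?_
      have h2 : Tendsto (fun ε : ℝ => ∑ x ∈ S,
          (max ((s : ℝ) * size (H.weight + 1) (B x) x.2 ε) 0) ^ 2) (𝓝[>] 0)
          (𝓝 (∑ x ∈ S, (max ((s : ℝ) * (-(r x : ℝ))) 0) ^ 2)) :=
        tendsto_finsetSum _ fun x hx => (((line_order (hr x hx)).const_mul (s : ℝ)).max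
          tendsto_const_nhds).pow 2
      refine le_of_tendsto h2 ?_
      exact (new_mean hf hne H S hB hs' hη).mono fun ε h3 => h3.2
    exact_mod_cast h1
  have h1 := key 1 (Or.inl rfl)
  have h2 := key (-1) (Or.inr rfl)
  simp only [one_mul] at h1
  simp only [neg_mul, one_mul, neg_neg] at h2
  exact ⟨h1, h2⟩

end

end Pool.Agent.T6.H4.NF
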